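import Mathlib

namespace Helper518PW

variable {A : Type*}

/-- the filling of `f` by `c` -/
def F (c : ℕ → A) (f : ℕ → Option A) (n : ℕ) : A := (f n).getD (c n)

/-- concatenation of the first `n` values of `g` and of `h` -/
def cat (n : ℕ) (g h : ℕ → A) (x : ℕ) : A := if x < n then g x else h (x - n)

theorem cat_lt {n : ℕ} {g h : ℕ → A} {x : ℕ} (hx : x < n) : cat n g h x = g x := by
  simp [cat, hx]

theorem cat_ge {n : ℕ} {g h : ℕ → A} {x : ℕ} (hx : n ≤ x) : cat n g h x = h (x - n) := by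
  have : ¬ x < n := by omega
  simp [cat, this]

def Ok (n0 : ℕ) (G g : ℕ → A) : Prop := ∀ z, ¬ ∀ x < n0, g (z + x) = G x

def rr (ρ : ℕ) (V : ℕ → A) (a : A) (x : ℕ) : A := if x + 1 = ρ then a else V x

def tt (ρ N : ℕ) (V : ℕ → A) (a b : A) (x : ℕ) : A :=
  if x + 1 = ρ then a else if x < ρ then V x else if x = ρ + N then a else b

def tl (m : ℕ) (a b : A) (x : ℕ) : A := if x = m then a else b

theorem ok_tl {G : ℕ → A} {a b : A} {m n0 x1 x2 : ℕ} (hab : a ≠ b) (h12 : x1 < x2) (h2 : x2 < n0)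
    (hG1 : G x1 = a) (hG2 : G x2 = a) : Ok n0 G (tl m a b) := by
  intro z h
  have e1 := h x1 (by omega)
  have e2 := h x2 h2
  rw [hG1] at e1
  rw [hG2] at e2
  have k1 : z + x1 = m := by
    by_contra hne
    rw [tl, if_neg hne] at e1
    exact hab e1.symm
  have k2 : z + x2 = m := by
    by_contra hne
    rw [tl, if_neg hne] at e2
    exact hab e2.symm
  omega

theorem ok_rr {V G g : ℕ → A} {a b : A} {L ρ n0 : ℕ}
    (hVb : ∀ x, L < x → V x = b) (hρ : L + n0 + 2 ≤ ρ)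
    (G1 : ∀ z, ¬ ∀ x < n0, V (z + x) = G x)
    (G2 : ∀ y, ¬ ∀ x < n0, (if x < y then b else if x = y then a else V (x - y - 1)) = G x)
    (hg : Ok n0 G g) (hs : ∀ x < n0, g x = V x) : Ok n0 G (cat ρ (rr ρ V a) g) := by
  intro z h
  by_cases hz : ρ ≤ z
  · apply hg (z - ρ)
    intro x hx
    rw [← h x hx, cat_ge (by omega)]
    congr 1
    omega
  by_cases hz2 : z + n0 + 1 ≤ ρ
  · apply G1 z
    intro x hx
    rw [← h x hx, cat_lt (by omega), rr, if_neg (by omega)]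
  apply G2 (ρ - 1 - z)
  intro x hx
  rw [← h x hx]
  by_cases c1 : x < ρ - 1 - z
  · rw [if_pos c1, cat_lt (by omega), rr, if_neg (by omega), hVb _ (by omega)]
  rw [if_neg c1]
  by_cases c2 : x = ρ - 1 - z
  · rw [if_pos c2, cat_lt (by omega), rr, if_pos (by omega)]
  rw [if_neg c2, cat_ge (by omega), hs _ (by omega)]
  congr 1
  omega

theorem ok_tt {V G g : ℕ → A} {a b : A} {m L ρ N n0 x1 x2 : ℕ} (hab : a ≠ b)
    (h12 : x1 + (m + 1) < x2) (h2 : x2 < n0) (hG1 : G x1 = a) (hG2 : G x2 = a)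
    (hVb : ∀ x, L < x → V x = b) (hρ : L + n0 + 2 ≤ ρ) (hN : n0 ≤ N)
    (G1 : ∀ z, ¬ ∀ x < n0, V (z + x) = G x)
    (G2 : ∀ y, ¬ ∀ x < n0, (if x < y then b else if x = y then a else V (x - y - 1)) = G x)
    (hg : Ok n0 G g) (hs : (∀ x < n0, g x = V x) ∨ g = tl m a b) :
    Ok n0 G (cat (ρ + N + 1) (tt ρ N V a b) g) := by
  intro z h
  by_cases hz : ρ + N + 1 ≤ z
  · apply hg (z - (ρ + N + 1))
    intro x hx
    rw [← h x hx, cat_ge (by omega)]
    congr 1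
    omega
  by_cases hz2 : z + n0 + 1 ≤ ρ
  · apply G1 z
    intro x hx
    rw [← h x hx, cat_lt (by omega), tt, if_neg (by omega), if_pos (by omega)]
  by_cases hz3 : z + n0 ≤ ρ + N
  · -- at most one `a`
    have e1 := h x1 (by omega)
    have e2 := h x2 (by omega)
    rw [hG1, cat_lt (by omega)] at e1
    rw [hG2, cat_lt (by omega)] at e2
    have k1 : z + x1 + 1 = ρ := by
      by_contra hne
      unfold tt at e1
      rw [if_neg hne] at e1
      by_cases c : z + x1 < ρ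
      · rw [if_pos c, hVb _ (by omega)] at e1
        exact hab e1.symm
      · rw [if_neg c, if_neg (by omega)] at e1
        exact hab e1.symm
    have k2 : z + x2 + 1 = ρ := by
      by_contra hne
      unfold tt at e2
      rw [if_neg hne] at e2
      by_cases c : z + x2 < ρ
      · rw [if_pos c, hVb _ (by omega)] at e2
        exact hab e2.symm
      · rw [if_neg c, if_neg (by omega)] at e2
        exact hab e2.symm
    omega
  rcases hs with hs | hs
  · apply G2 (ρ + N - z)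
    intro x hx
    rw [← h x hx]
    by_cases c1 : x < ρ + N - z
    · rw [if_pos c1, cat_lt (by omega), tt, if_neg (by omega), if_neg (by omega), if_neg (by omega)]
    rw [if_neg c1]
    by_cases c2 : x = ρ + N - z
    · rw [if_pos c2, cat_lt (by omega), tt, if_neg (by omega), if_neg (by omega), if_pos (by omega)]
    rw [if_neg c2, cat_ge (by omega), hs _ (by omega)]
    congr 1
    omega
  · subst hs
    have e1 := h x1 (by omega)
    have e2 := h x2 (by omega)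
    rw [hG1] at e1
    rw [hG2] at e2
    have k1 : ρ + N ≤ z + x1 := by
      by_contra hne
      rw [cat_lt (by omega), tt, if_neg (by omega), if_neg (by omega), if_neg (by omega)] at e1
      exact hab e1.symm
    rw [cat_ge (by omega), tl, if_neg (by omega)] at e2
    exact hab e2.symm

/-- the whole word -/
def Y (m ρ N : ℕ) (V : ℕ → A) (a b : A) : ℕ → A :=
  cat (ρ + N + 1) (tt ρ N V a b) <| cat ρ (rr ρ V a) <| cat (ρ + N + 1) (tt ρ N V a b) <|
  cat (ρ + N + 1) (tt ρ N V a b) <| cat ρ (rr ρ V a) <| cat (ρ + N + 1) (tt ρ N V a b) (tl m a b)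

section Yvals
variable {V : ℕ → A} {a b : A} {m ρ N : ℕ}

theorem Y1 {x : ℕ} (hx : x < ρ + N + 1) : Y m ρ N V a b x = tt ρ N V a b x := by
  unfold Y; rw [cat_lt hx]

theorem Y2 {x : ℕ} (hx : x < ρ) : Y m ρ N V a b (ρ + N + 1 + x) = rr ρ V a x := by
  unfold Y
  rw [cat_ge (by omega), cat_lt (by omega)]
  congr 1; omega

theorem Y3 {x : ℕ} (hx : x < ρ + N + 1) :
    Y m ρ N V a b (ρ + N + 1 + ρ + x) = tt ρ N V a b x := by
  unfold Y
  rw [cat_ge (by omega), cat_ge (by omega), cat_lt (by omega)]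
  congr 1; omega

theorem Y4 {x : ℕ} (hx : x < ρ + N + 1) :
    Y m ρ N V a b (2 * (ρ + N + 1) + ρ + x) = tt ρ N V a b x := by
  unfold Y
  rw [cat_ge (by omega), cat_ge (by omega), cat_ge (by omega), cat_lt (by omega)]
  congr 1; omega

theorem Y5 {x : ℕ} (hx : x < ρ) :
    Y m ρ N V a b (3 * (ρ + N + 1) + ρ + x) = rr ρ V a x := by
  unfold Y
  rw [cat_ge (by omega), cat_ge (by omega), cat_ge (by omega), cat_ge (by omega),
    cat_lt (by omega)]
  congr 1; omega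

theorem Y6 {x : ℕ} (hx : x < ρ + N + 1) :
    Y m ρ N V a b (3 * (ρ + N + 1) + 2 * ρ + x) = tt ρ N V a b x := by
  unfold Y
  rw [cat_ge (by omega), cat_ge (by omega), cat_ge (by omega), cat_ge (by omega),
    cat_ge (by omega), cat_lt (by omega)]
  congr 1; omega

theorem Y7 {x : ℕ} :
    Y m ρ N V a b (4 * (ρ + N + 1) + 2 * ρ + x) = tl m a b x := by
  unfold Y
  rw [cat_ge (by omega), cat_ge (by omega), cat_ge (by omega), cat_ge (by omega),
    cat_ge (by omega), cat_ge (by omega)]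
  congr 1; omega

theorem rr_eq_tt {x : ℕ} (hx : x < ρ) : rr ρ V a x = tt ρ N V a b x := by
  unfold rr tt
  by_cases h : x + 1 = ρ
  · rw [if_pos h, if_pos h]
  · rw [if_neg h, if_neg h, if_pos hx]

theorem tt_end : tt ρ N V a b (ρ + N) = a := by
  unfold tt
  by_cases h : ρ + N + 1 = ρ
  · omega
  · rw [if_neg h, if_neg (by omega), if_pos rfl]

theorem tt_mid {x : ℕ} (h1 : ρ ≤ x) (h2 : x < ρ + N) : tt ρ N V a b x = b := by
  unfold tt
  rw [if_neg (by omega), if_neg (by omega), if_neg (by omega)]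

theorem tt_pre {x : ℕ} (h : x + 1 = ρ) : tt ρ N V a b x = a := by
  unfold tt
  rw [if_pos h]

theorem rr_pre {x : ℕ} (h : x + 1 = ρ) : rr ρ V a x = a := by
  unfold rr
  rw [if_pos h]

/-- first square -/
theorem Y_sq1 (hm : m + 2 ≤ ρ) (hN : ρ < N) (hV : ∀ x < m, V x = b) {x : ℕ}
    (hx : x < (ρ + N + 1) + ρ + m) :
    Y m ρ N V a b ((ρ + N + 1) + ρ + x) = Y m ρ N V a b x := by
  by_cases h : x < ρ + N + 1
  · rw [Y3 h, Y1 h]
  by_cases h' : x < ρ + N + 1 + ρ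
  · obtain ⟨y, rfl⟩ : ∃ y, x = ρ + N + 1 + y := ⟨x - (ρ + N + 1), by omega⟩
    rw [Y2 (by omega)]
    have : ρ + N + 1 + ρ + (ρ + N + 1 + y) = 2 * (ρ + N + 1) + ρ + y := by ring
    rw [this, Y4 (by omega), rr_eq_tt (by omega)]
  · obtain ⟨y, rfl⟩ : ∃ y, x = ρ + N + 1 + ρ + y := ⟨x - (ρ + N + 1 + ρ), by omega⟩
    have : ρ + N + 1 + ρ + (ρ + N + 1 + ρ + y) = 2 * (ρ + N + 1) + ρ + (ρ + y) := by ring
    rw [this, Y4 (by omega), Y3 (by omega), tt_mid (by omega) (by omega), tt, if_neg (by omega),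
      if_pos (by omega), hV y (by omega)]

/-- second square -/
theorem Y_sq2 (hm : m + 2 ≤ ρ) (hV : ∀ x < m, V x = b) {x : ℕ}
    (hx : x < 2 * (ρ + N + 1) + ρ + m) :
    Y m ρ N V a b (2 * (ρ + N + 1) + ρ + x) = Y m ρ N V a b x := by
  by_cases h : x < ρ + N + 1
  · rw [Y4 h, Y1 h]
  by_cases h' : x < ρ + N + 1 + ρ
  · obtain ⟨y, rfl⟩ : ∃ y, x = ρ + N + 1 + y := ⟨x - (ρ + N + 1), by omega⟩
    rw [Y2 (by omega)]
    have : 2 * (ρ + N + 1) + ρ + (ρ + N + 1 + y) = 3 * (ρ + N + 1) + ρ + y := by ring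
    rw [this, Y5 (by omega)]
  by_cases h'' : x < 2 * (ρ + N + 1) + ρ
  · obtain ⟨y, rfl⟩ : ∃ y, x = ρ + N + 1 + ρ + y := ⟨x - (ρ + N + 1 + ρ), by omega⟩
    rw [Y3 (by omega)]
    have : 2 * (ρ + N + 1) + ρ + (ρ + N + 1 + ρ + y) = 3 * (ρ + N + 1) + 2 * ρ + y := by ring
    rw [this, Y6 (by omega)]
  · obtain ⟨y, rfl⟩ : ∃ y, x = 2 * (ρ + N + 1) + ρ + y :=
      ⟨x - (2 * (ρ + N + 1) + ρ), by omega⟩
    have : 2 * (ρ + N + 1) + ρ + (2 * (ρ + N + 1) + ρ + y) = 4 * (ρ + N + 1) + 2 * ρ + y := by ring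
    rw [this, Y7, Y4 (by omega), tl, if_neg (by omega), tt, if_neg (by omega),
      if_pos (by omega), hV y (by omega)]

theorem Y_end {x : ℕ} (hx : 4 * (ρ + N + 1) + 2 * ρ + m < x) : Y m ρ N V a b x = b := by
  obtain ⟨y, rfl⟩ : ∃ y, x = 4 * (ρ + N + 1) + 2 * ρ + y :=
    ⟨x - (4 * (ρ + N + 1) + 2 * ρ), by omega⟩
  rw [Y7, tl, if_neg (by omega)]

theorem Y_uni2 (hab : a ≠ b) (hm : m + 2 ≤ ρ) (hN : ρ < N) {δ : ℕ} (hδ : 0 < δ) :
    ∃ x, ρ ≤ x + 1 ∧ x < 2 * (2 * (ρ + N + 1) + ρ) ∧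
      Y m ρ N V a b (δ + x) ≠ Y m ρ N V a b x := by
  by_cases h1 : δ ≤ N
  · refine ⟨3 * (ρ + N + 1) + 2 * ρ + (ρ + N - δ), by omega, by omega, ?_⟩
    have : δ + (3 * (ρ + N + 1) + 2 * ρ + (ρ + N - δ)) =
        3 * (ρ + N + 1) + 2 * ρ + (ρ + N) := by omega
    rw [this, Y6 (by omega), Y6 (by omega), tt_end, tt_mid (by omega) (by omega)]
    exact hab
  · refine ⟨3 * (ρ + N + 1) + 2 * ρ + (ρ + N), by omega, by omega, ?_⟩
    rw [Y6 (by omega), tt_end, Y_end (by omega)]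
    exact hab.symm

theorem Y_uni1 (hab : a ≠ b) (hm : m + 2 ≤ ρ) (hN : ρ < N) {δ : ℕ} (hδ : 0 < δ) :
    ∃ x, ρ ≤ x + 1 ∧ x < 2 * ((ρ + N + 1) + ρ) ∧
      Y m ρ N V a b (δ + x) ≠ Y m ρ N V a b x := by
  by_contra hcon
  push Not at hcon
  -- values of the word at the beginning
  have hb : ∀ j < N, Y m ρ N V a b (δ + ρ + j) = b := by
    intro j hj
    have := hcon (ρ + j) (by omega) (by omega)
    rw [Y1 (x := ρ + j) (by omega), tt_mid (by omega) (by omega), ← add_assoc] at this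
    exact this
  have hP : ∀ P, Y m ρ N V a b P = a → ¬ (δ + ρ ≤ P ∧ P < δ + ρ + N) := by
    rintro P hPa ⟨h1, h2⟩
    have := hb (P - (δ + ρ)) (by omega)
    rw [show δ + ρ + (P - (δ + ρ)) = P by omega, hPa] at this
    exact hab this
  have haN : Y m ρ N V a b (δ + ρ + N) = a := by
    have := hcon (ρ + N) (by omega) (by omega)
    rw [Y1 (x := ρ + N) (by omega), tt_end, ← add_assoc] at this
    exact this
  have p1 := hP (ρ + N) (by rw [Y1 (by omega), tt_end])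
  have p2 := hP (ρ + N + 1 + (ρ - 1)) (by rw [Y2 (by omega), rr_pre (by omega)])
  have p3 := hP (ρ + N + 1 + ρ + (ρ - 1)) (by rw [Y3 (by omega), tt_pre (by omega)])
  have p4 := hP (ρ + N + 1 + ρ + (ρ + N)) (by rw [Y3 (by omega), tt_end])
  have p5 := hP (2 * (ρ + N + 1) + ρ + (ρ - 1)) (by rw [Y4 (by omega), tt_pre (by omega)])
  have p6 := hP (2 * (ρ + N + 1) + ρ + (ρ + N)) (by rw [Y4 (by omega), tt_end])
  have p7 := hP (3 * (ρ + N + 1) + ρ + (ρ - 1)) (by rw [Y5 (by omega), rr_pre (by omega)])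
  have p8 := hP (3 * (ρ + N + 1) + 2 * ρ + (ρ - 1)) (by rw [Y6 (by omega), tt_pre (by omega)])
  have p9 := hP (3 * (ρ + N + 1) + 2 * ρ + (ρ + N)) (by rw [Y6 (by omega), tt_end])
  have p10 : ¬ (4 * (ρ + N + 1) + 2 * ρ + m < δ + ρ + N) := by
    intro h
    rw [Y_end h] at haN
    exact hab haN.symm
  have hq : δ = ρ + N + 1 + ρ ∨ δ = 2 * (ρ + N + 1) + ρ ∨ δ = 3 * (ρ + N + 1) + 2 * ρ := by
    omega
  rcases hq with h | h | h
  · have := hcon (ρ + N + 1 + ρ + N) (by omega) (by omega)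
    rw [Y3 (x := N) (by omega), tt_mid (by omega) (by omega),
      show δ + (ρ + N + 1 + ρ + N) = 2 * (ρ + N + 1) + ρ + (ρ + N) by omega,
      Y4 (by omega), tt_end] at this
    exact hab this
  · have := hcon (2 * (ρ + N + 1) + ρ + (ρ - 1)) (by omega) (by omega)
    rw [Y4 (x := ρ - 1) (by omega), tt_pre (by omega), Y_end (by omega)] at this
    exact hab this.symm
  · have := hcon (ρ + N + 1 + ρ + (ρ - 1)) (by omega) (by omega)
    rw [Y3 (x := ρ - 1) (by omega), tt_pre (by omega), Y_end (by omega)] at this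
    exact hab this.symm

theorem ok_Y {G : ℕ → A} {L n0 x1 x2 : ℕ} (hab : a ≠ b)
    (h12 : x1 + (m + 1) < x2) (h2 : x2 < n0) (hG1 : G x1 = a) (hG2 : G x2 = a)
    (hVb : ∀ x, L < x → V x = b) (hρ : L + n0 + 2 ≤ ρ) (hN : n0 ≤ N)
    (G1 : ∀ z, ¬ ∀ x < n0, V (z + x) = G x)
    (G2 : ∀ y, ¬ ∀ x < n0, (if x < y then b else if x = y then a else V (x - y - 1)) = G x) :
    Ok n0 G (Y m ρ N V a b) := by
  have start_tt : ∀ g : ℕ → A, ∀ x < n0, cat (ρ + N + 1) (tt ρ N V a b) g x = V x := by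
    intro g x hx
    rw [cat_lt (by omega), tt, if_neg (by omega), if_pos (by omega)]
  have start_rr : ∀ g : ℕ → A, ∀ x < n0, cat ρ (rr ρ V a) g x = V x := by
    intro g x hx
    rw [cat_lt (by omega), rr, if_neg (by omega)]
  unfold Y
  refine ok_tt (m := m) hab h12 h2 hG1 hG2 hVb hρ hN G1 G2 ?_ (Or.inl (start_rr _))
  refine ok_rr hVb hρ G1 G2 ?_ (start_tt _)
  refine ok_tt (m := m) hab h12 h2 hG1 hG2 hVb hρ hN G1 G2 ?_ (Or.inl (start_tt _))
  refine ok_tt (m := m) hab h12 h2 hG1 hG2 hVb hρ hN G1 G2 ?_ (Or.inl (start_rr _))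
  refine ok_rr hVb hρ G1 G2 ?_ (start_tt _)
  refine ok_tt hab h12 h2 hG1 hG2 hVb hρ hN G1 G2 ?_ (Or.inr rfl)
  exact ok_tl hab (by omega) h2 hG1 hG2

end Yvals

end Helper518PW
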