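import Mathlib
import Pool.Agent.Helper518_PW.Blocks

namespace Helper518PW

variable {A : Type*}

structure Setup (H : Finset ℕ) (m lH E : ℕ) (a b : A) : Prop where
  hab : a ≠ b
  hmin : ∀ h ∈ H, m ≤ h
  hmax : ∀ h ∈ H, h < lH
  hm : m < lH
  hE : lH + 1 ≤ E

structure St (H : Finset ℕ) (m lH E : ℕ) (a b : A) (f : ℕ → Option A) (l : ℕ) : Prop where
  s1 : ∀ n, f n = none ↔ n ∈ H
  s2 : ∀ n, n < m → f n = some b
  s3 : f lH = some a
  s4 : ∀ n, lH < n → n ≤ lH + E → f n = some b
  s5 : f (lH + E + 1) = some a
  s6 : lH + E + 2 ≤ l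
  s7 : f l = some a
  s8 : ∀ n, l < n → f n = some b

structure It (f : ℕ → Option A) (l l0 i : ℕ) (c : ℕ → A) (q : ℕ) : Prop where
  pos : 0 < q
  le : i + 2 * q ≤ l
  ge : l0 ≤ i + 2 * q
  per : ∀ x < q, F c f (i + q + x) = F c f (i + x)
  uni : ∀ p, i < p → ¬ ∀ x < 2 * q, f (p + x) = none ∨ f (p + x) = some (F c f (i + x))

theorem F_some {c : ℕ → A} {f : ℕ → Option A} {n : ℕ} {v : A} (h : f n = some v) :
    F c f n = v := by simp [F, h]

theorem F_none {c : ℕ → A} {f : ℕ → Option A} {n : ℕ} (h : f n = none) :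
    F c f n = c n := by simp [F, h]

theorem F_or {c : ℕ → A} {f : ℕ → Option A} (n : ℕ) : f n = none ∨ f n = some (F c f n) := by
  unfold F
  cases f n <;> simp

/-- `G1` -/
theorem G1_lemma {H : Finset ℕ} {m lH E : ℕ} {a b : A} (S : Setup H m lH E a b)
    {f : ℕ → Option A} {l : ℕ} (T : St H m lH E a b f l) (c : ℕ → A)
    {i0 q0 : ℕ} {c0 : ℕ → A} (hi0 : i0 ≤ m) (hd : ∃ h ∈ H, c0 h ≠ c h)
    (I : It f l (lH + E + 2) i0 c0 q0) (z : ℕ) :
    ¬ ∀ x < 2 * q0, F c f (z + x) = F c0 f (i0 + x) := by
  intro h
  have hge := I.ge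
  have hm := S.hm
  have hE := S.hE
  have hp : z ≤ i0 := by
    by_contra hlt
    apply I.uni z (by omega)
    intro x hx
    have := h x hx
    rw [← this]
    exact F_or _
  rcases Nat.lt_or_ge z i0 with h1 | h1
  · have e := h (lH - z) (by omega)
    rw [show z + (lH - z) = lH by omega, F_some T.s3,
      F_some (T.s4 _ (by omega) (by omega))] at e
    exact S.hab e
  · have hz : z = i0 := by omega
    obtain ⟨k, hk, hne⟩ := hd
    apply hne
    have k1 := S.hmin k hk
    have k2 := S.hmax k hk
    have e := h (k - i0) (by omega)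
    rw [show z + (k - i0) = k by omega, show i0 + (k - i0) = k by omega,
      F_none ((T.s1 k).2 hk), F_none ((T.s1 k).2 hk)] at e
    exact e.symm

/-- `G2` -/
theorem G2_lemma {H : Finset ℕ} {m lH E : ℕ} {a b : A} (S : Setup H m lH E a b)
    {f : ℕ → Option A} {l : ℕ} (T : St H m lH E a b f l) (c : ℕ → A)
    {i0 q0 : ℕ} {c0 : ℕ → A} (hi0 : i0 ≤ m)
    (I : It f l (lH + E + 2) i0 c0 q0) (y : ℕ) :
    ¬ ∀ x < 2 * q0, (if x < y then b else if x = y then a else F c f (x - y - 1))
      = F c0 f (i0 + x) := by
  intro h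
  have hge := I.ge
  have hm := S.hm
  have hE := S.hE
  have hy : y ≤ lH - i0 := by
    by_contra hlt
    have e := h (lH - i0) (by omega)
    rw [if_pos (by omega), show i0 + (lH - i0) = lH by omega, F_some T.s3] at e
    exact S.hab e.symm
  have hy2 : m ≤ i0 + y := by
    by_contra hlt
    have e := h y (by omega)
    rw [if_neg (by omega), if_pos rfl, F_some (T.s2 _ (by omega))] at e
    exact S.hab e
  have e := h (y + 1 + lH) (by omega)
  rw [if_neg (by omega), if_neg (by omega),
    show y + 1 + lH - y - 1 = lH by omega, F_some T.s3,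
    F_some (T.s4 _ (by omega) (by omega))] at e
  exact S.hab e

theorem step {H : Finset ℕ} {m lH E : ℕ} {a b : A} (S : Setup H m lH E a b)
    {f : ℕ → Option A} {l : ℕ} (T : St H m lH E a b f l) (c : ℕ → A) :
    ∃ (f' : ℕ → Option A) (l' : ℕ), St H m lH E a b f' l' ∧ l' ≤ 40 * l ∧
      (∀ i ≤ m, ∃ q1 q2, q1 < q2 ∧ It f' l' (lH + E + 2) i c q1 ∧
        It f' l' (lH + E + 2) i c q2) ∧
      (∀ i0 c0 q0, i0 ≤ m → (∃ h ∈ H, c0 h ≠ c h) →
        It f l (lH + E + 2) i0 c0 q0 → It f' l' (lH + E + 2) i0 c0 q0) := by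
  classical
  obtain ⟨V, hV⟩ : ∃ V : ℕ → A, V = fun x => F c f x := ⟨_, rfl⟩
  obtain ⟨ρ, hρ⟩ : ∃ ρ, ρ = l + (l + 1) + 2 := ⟨_, rfl⟩
  obtain ⟨N, hN⟩ : ∃ N, N = 2 * ρ + 1 := ⟨_, rfl⟩
  have hm := S.hm
  have hE := S.hE
  have hs6 := T.s6
  obtain ⟨Z, hZ⟩ : ∃ Z, Z = Y m ρ N V a b := ⟨_, rfl⟩
  obtain ⟨f', hf'⟩ : ∃ f' : ℕ → Option A, f' = fun n => if n < l then f n else some (Z n) :=
    ⟨_, rfl⟩
  have hVb : ∀ x, l < x → V x = b := by
    intro x hx
    rw [hV]
    exact F_some (T.s8 _ (by omega))
  have hVm : ∀ x, x < m → V x = b := by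
    intro x hx
    rw [hV]
    exact F_some (T.s2 _ hx)
  have hVa : V l = a := by
    rw [hV]
    exact F_some T.s7
  have flt : ∀ n, n < l → f' n = f n := by
    intro n hn
    rw [hf']; simp [hn]
  have fge : ∀ n, l ≤ n → f' n = some (Z n) := by
    intro n hn
    rw [hf']; simp [Nat.not_lt.2 hn]
  have ZV : ∀ x, x + 1 < ρ → Z x = V x := by
    intro x hx
    rw [hZ, Y1 (by omega), tt, if_neg (by omega), if_pos (by omega)]
  -- agreement with the old word on a long stretch
  have fagree : ∀ n, n ≤ 2 * l + 1 → f' n = f n := by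
    intro n hn
    by_cases h : n < l
    · exact flt n h
    · rw [fge n (by omega), ZV _ (by omega)]
      by_cases h2 : n = l
      · subst h2
        rw [hVa, T.s7]
      · rw [hVb _ (by omega), T.s8 _ (by omega)]
  have Fagree : ∀ (d : ℕ → A) n, n < l → F d f' n = F d f n := by
    intro d n hn
    unfold F
    rw [flt n hn]
  have FZ : ∀ x, F c f' x = Z x := by
    intro x
    by_cases h : x < l
    · rw [Fagree c _ h, ZV x (by omega), hV]
    · rw [F_some (fge _ (by omega))]
  obtain ⟨l', hl'⟩ : ∃ l', l' = 4 * (ρ + N + 1) + 2 * ρ + m := ⟨_, rfl⟩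
  refine ⟨f', l', ?_, by omega, ?_, ?_⟩
  · -- state
    refine ⟨?_, ?_, ?_, ?_, ?_, ?_, ?_, ?_⟩
    · intro n
      by_cases h : n < l
      · rw [flt n h]; exact T.s1 n
      · rw [fge n (by omega)]
        constructor
        · intro h2; simp at h2
        · intro h2
          have := S.hmax n h2
          omega
    · intro n hn
      rw [flt n (by omega)]; exact T.s2 n hn
    · rw [flt _ (by omega)]; exact T.s3
    · intro n h1 h2
      rw [flt _ (by omega)]; exact T.s4 n h1 h2
    · rw [flt _ (by omega)]; exact T.s5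
    · omega
    · rw [fge _ (by omega), hZ, hl', Y7]
      simp [tl]
    · intro n hn
      rw [fge _ (by omega), hZ, Y_end (by omega)]
  · -- new items
    intro i hi
    refine ⟨ρ + N + 1 + ρ, 2 * (ρ + N + 1) + ρ, by omega, ?_, ?_⟩
    · refine ⟨by omega, by omega, by omega, ?_, ?_⟩
      · intro x hx
        rw [show i + (ρ + N + 1 + ρ) + x = (ρ + N + 1) + ρ + (i + x) by ring, FZ, FZ, hZ]
        exact Y_sq1 (by omega) (by omega) hVm (by omega)
      · intro p hp hall
        obtain ⟨y, h1, h2, h3⟩ := Y_uni1 (V := V) (m := m) S.hab (ρ := ρ) (N := N) (by omega)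
          (by omega) (δ := p - i) (by omega)
        have := hall (y - i) (by omega)
        rw [fge _ (by omega), FZ] at this
        rcases this with this | this
        · simp at this
        · apply h3
          have e := Option.some.inj this
          rw [hZ, show i + (y - i) = y by omega, show p + (y - i) = p - i + y by omega] at e
          exact e
    · refine ⟨by omega, by omega, by omega, ?_, ?_⟩
      · intro x hx
        rw [show i + (2 * (ρ + N + 1) + ρ) + x = 2 * (ρ + N + 1) + ρ + (i + x) by ring, FZ, FZ, hZ]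
        exact Y_sq2 (by omega) hVm (by omega)
      · intro p hp hall
        obtain ⟨y, h1, h2, h3⟩ := Y_uni2 (V := V) (m := m) S.hab (ρ := ρ) (N := N) (by omega)
          (by omega) (δ := p - i) (by omega)
        have := hall (y - i) (by omega)
        rw [fge _ (by omega), FZ] at this
        rcases this with this | this
        · simp at this
        · apply h3
          have e := Option.some.inj this
          rw [hZ, show i + (y - i) = y by omega, show p + (y - i) = p - i + y by omega] at e
          exact e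
  · -- old items
    intro i0 c0 q0 hi0 hd I
    have hge := I.ge
    have hle := I.le
    refine ⟨I.pos, by omega, I.ge, ?_, ?_⟩
    · intro x hx
      rw [Fagree c0 _ (by omega), Fagree c0 _ (by omega)]
      exact I.per x hx
    · intro p hp hall
      by_cases hpl : p < l
      · apply I.uni p hp
        intro x hx
        have := hall x hx
        rw [fagree _ (by omega), Fagree c0 _ (by omega)] at this
        exact this
      · have hok : Ok (2 * q0) (fun x => F c0 f (i0 + x)) (Y m ρ N V a b) := by
          refine ok_Y (L := l) (x1 := lH - i0) (x2 := lH + E + 1 - i0) S.hab (by omega)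
            (by omega) ?_ ?_ hVb (by omega) (by omega) ?_ ?_
          · show F c0 f (i0 + (lH - i0)) = a
            rw [show i0 + (lH - i0) = lH by omega]
            exact F_some T.s3
          · show F c0 f (i0 + (lH + E + 1 - i0)) = a
            rw [show i0 + (lH + E + 1 - i0) = lH + E + 1 by omega]
            exact F_some T.s5
          · intro z
            rw [hV]
            exact G1_lemma S T c hi0 hd I z
          · intro y
            rw [hV]
            exact G2_lemma S T c hi0 I y
        apply hok p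
        intro x hx
        have := hall x hx
        rw [fge _ (by omega)] at this
        rcases this with this | this
        · simp at this
        · have e := Option.some.inj this
          rw [Fagree c0 _ (by omega), hZ] at e
          exact e

/-- base -/
theorem base {H : Finset ℕ} {m lH E : ℕ} {a b : A} (S : Setup H m lH E a b) :
    ∃ f : ℕ → Option A, St H m lH E a b f (lH + E + 2) := by
  classical
  have hm := S.hm
  have hE := S.hE
  refine ⟨fun n => if n ∈ H then none else if n = lH ∨ n = lH + E + 1 ∨ n = lH + E + 2 then some a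
    else some b, ?_, ?_, ?_, ?_, ?_, le_refl _, ?_, ?_⟩
  · intro n
    constructor
    · intro h
      by_contra hn
      simp only [if_neg hn] at h
      split_ifs at h
    · intro h
      simp [h]
  · intro n hn
    have h1 : n ∉ H := fun h => by have := S.hmin n h; omega
    have h2 : ¬ (n = lH ∨ n = lH + E + 1 ∨ n = lH + E + 2) := by omega
    simp only [if_neg h1, if_neg h2]
  · have h1 : lH ∉ H := fun h => by have := S.hmax _ h; omega
    simp only [if_neg h1]
    simp
  · intro n hn1 hn2
    have h1 : n ∉ H := fun h => by have := S.hmax n h; omega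
    have h2 : ¬ (n = lH ∨ n = lH + E + 1 ∨ n = lH + E + 2) := by omega
    simp only [if_neg h1, if_neg h2]
  · have h1 : lH + E + 1 ∉ H := fun h => by have := S.hmax _ h; omega
    simp only [if_neg h1]
    simp
  · have h1 : lH + E + 2 ∉ H := fun h => by have := S.hmax _ h; omega
    simp only [if_neg h1]
    simp
  · intro n hn
    have h1 : n ∉ H := fun h => by have := S.hmax n h; omega
    have h2 : ¬ (n = lH ∨ n = lH + E + 1 ∨ n = lH + E + 2) := by omega
    simp only [if_neg h1, if_neg h2]

/-- extension of a filling of the holes -/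
noncomputable def ext {H : Finset ℕ} (b : A) (c : H → A) (n : ℕ) : A := by
  classical exact if h : n ∈ H then c ⟨n, h⟩ else b

theorem ext_mem {H : Finset ℕ} {b : A} {c : H → A} {n : ℕ} (h : n ∈ H) :
    ext b c n = c ⟨n, h⟩ := by
  unfold ext; simp [h]

theorem all_items [Fintype A] [DecidableEq A] {H : Finset ℕ} {m lH E : ℕ} {a b : A}
    (S : Setup H m lH E a b) :
    ∃ (f : ℕ → Option A) (l : ℕ), St H m lH E a b f l ∧
      l ≤ (lH + E + 2) * 40 ^ (Fintype.card A ^ H.card) ∧
      ∀ i ≤ m, ∀ c : H → A,
      ∃ q1 q2, q1 < q2 ∧ It f l (lH + E + 2) i (ext b c) q1 ∧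
        It f l (lH + E + 2) i (ext b c) q2 := by
  classical
  have key : ∀ D : Finset (H → A),
      ∃ (f : ℕ → Option A) (l : ℕ), St H m lH E a b f l ∧ l ≤ (lH + E + 2) * 40 ^ D.card ∧
      ∀ i ≤ m, ∀ d ∈ D,
      ∃ q1 q2, q1 < q2 ∧ It f l (lH + E + 2) i (ext b d) q1 ∧
        It f l (lH + E + 2) i (ext b d) q2 := by
    intro D
    induction D using Finset.induction_on with
    | empty =>
      obtain ⟨f, hf⟩ := base S
      exact ⟨f, _, hf, by simp, by simp⟩
    | insert d s hd ih =>
      obtain ⟨f, l, hf, hl, hall⟩ := ih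
      obtain ⟨f', l', hf', hl', hnew, hold⟩ := step S hf (ext b d)
      refine ⟨f', l', hf', ?_, ?_⟩
      · rw [Finset.card_insert_of_notMem hd, pow_succ]
        calc l' ≤ 40 * l := hl'
          _ ≤ 40 * ((lH + E + 2) * 40 ^ s.card) := by gcongr
          _ = (lH + E + 2) * (40 ^ s.card * 40) := by ring
      intro i hi e he
      rcases Finset.mem_insert.1 he with rfl | he
      · exact hnew i hi
      · obtain ⟨q1, q2, h12, i1, i2⟩ := hall i hi e he
        have hcond : ∃ h ∈ H, ext b e h ≠ ext b d h := by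
          by_contra hcon
          push Not at hcon
          have : e = d := by
            funext ⟨n, hn⟩
            have := hcon n hn
            rw [ext_mem hn, ext_mem hn] at this
            exact this
          rw [this] at he
          exact hd he
        exact ⟨q1, q2, h12, hold _ _ _ hi hcond i1, hold _ _ _ hi hcond i2⟩
  obtain ⟨f, l, hf, hl, hall⟩ := key Finset.univ
  refine ⟨f, l, hf, ?_, ?_⟩
  · have : (Finset.univ : Finset (H → A)).card = Fintype.card A ^ H.card := by
      rw [Finset.card_univ, Fintype.card_fun, Fintype.card_coe]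
    rw [this] at hl
    exact hl
  · intro i hi c
    exact hall i hi c (Finset.mem_univ _)

end Helper518PW
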